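import Pool.Agent.Helper22.D0L.Lists

/-!
# The 2n bound for conjugates of marked morphisms (MP_2bc838_lc)
-/

set_option autoImplicit false

namespace Pool.Agent.Helper22.D0L.Old.MarkedConjugates

/-- `h` is conjugate by a word `z` to a morphism `k` that maps the letters to nonempty words with
pairwise distinct first letters: `h(x) z = z k(x)` for every letter `x`. -/
def LeftMarkedConj {n : ℕ} (h : Fin n → List (Fin n)) : Prop :=
  ∃ (z : List (Fin n)) (k : Fin n → List (Fin n)), (∀ x, h x ++ z = z ++ k x) ∧
    (∀ x, k x ≠ []) ∧ ∀ x y, (k x).head? = (k y).head? → x = y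

/-- `h` is conjugate by a word `z` to a morphism `k` that maps the letters to nonempty words with
pairwise distinct last letters: `z h(x) = k(x) z` for every letter `x`. -/
def RightMarkedConj {n : ℕ} (h : Fin n → List (Fin n)) : Prop :=
  ∃ (z : List (Fin n)) (k : Fin n → List (Fin n)), (∀ x, z ++ h x = k x ++ z) ∧
    (∀ x, k x ≠ []) ∧ ∀ x y, (k x).getLast? = (k y).getLast? → x = y

/-- For two D0L systems over `n` letters whose morphisms are both conjugate to left-marked
morphisms, or both conjugate to right-marked morphisms, the sequences coincide if their first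
`2 n` terms coincide. -/
theorem result (n : ℕ) (h₁ h₂ : Fin n → List (Fin n)) (w₁ w₂ : List (Fin n))
    (hyp : (LeftMarkedConj h₁ ∧ LeftMarkedConj h₂) ∨ (RightMarkedConj h₁ ∧ RightMarkedConj h₂)) :
    (∀ k : ℕ, (fun u : List (Fin n) => u.flatMap h₁)^[k] w₁ =
               (fun u : List (Fin n) => u.flatMap h₂)^[k] w₂) ↔
    (∀ k : ℕ, k < 2 * n →
               (fun u : List (Fin n) => u.flatMap h₁)^[k] w₁ =
               (fun u : List (Fin n) => u.flatMap h₂)^[k] w₂) := by
  constructor
  · intro h k _
    exact h k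
  · intro h k
    rcases Nat.eq_zero_or_pos n with hn | hn
    · subst hn
      have h1 : ∀ u : List (Fin 0), u = [] := by
        intro u
        cases u with
        | nil => rfl
        | cons x u => exact x.elim0
      rw [h1 (_^[k] w₁), h1 (_^[k] w₂)]
    · have h0 : w₁ = w₂ := h 0 (by omega)
      subst h0
      have h' : ∀ i < 2 * Fintype.card (Fin n),
          (fun v : List (Fin n) => v.flatMap h₁)^[i] w₁ =
          (fun v : List (Fin n) => v.flatMap h₂)^[i] w₁ := by
        rw [Fintype.card_fin]
        exact h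
      rcases hyp with ⟨⟨z₁, k₁, a1, a2, a3⟩, ⟨z₂, k₂, b1, b2, b3⟩⟩ |
        ⟨⟨z₁, k₁, a1, a2, a3⟩, ⟨z₂, k₂, b1, b2, b3⟩⟩
      · exact Pool.Agent.Helper22.D0L.main_left a1 b1 a2 b2 a3 b3 w₁ h' k
      · exact Pool.Agent.Helper22.D0L.main_right a1 b1 a2 b2 a3 b3 w₁ h' k

end Pool.Agent.Helper22.D0L.Old.MarkedConjugates
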