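import Pool.Agent.Helper22.D0L.ListsP

/-!
# The 2n bound for conjugates of a marked and of a prefix morphism (MP_2bc838_lc)
-/

set_option autoImplicit false

namespace Pool.Agent.Results.MP_2bc838_lc.MarkedPrefix

/-- No image of a letter is empty or a prefix of the image of another letter. -/
def IsPrefixMorphism {n : ℕ} (k : Fin n → List (Fin n)) : Prop :=
  (∀ x, k x ≠ []) ∧ ∀ x y, x ≠ y → ¬ k x <+: k y

/-- The images of distinct letters have distinct first letters. -/
def IsMarked {n : ℕ} (k : Fin n → List (Fin n)) : Prop :=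
  ∀ x y, (k x).head? = (k y).head? → x = y

/-- `h` is conjugate to `k`: there is a word `z` with `h(x) z = z k(x)` for all letters `x`. -/
def IsConj {n : ℕ} (h k : Fin n → List (Fin n)) : Prop :=
  ∃ z : List (Fin n), ∀ x, h x ++ z = z ++ k x

/-- Both morphisms are conjugate to prefix morphisms, and one of these two prefix morphisms is
marked. -/
def Good {n : ℕ} (h₁ h₂ : Fin n → List (Fin n)) : Prop :=
  ∃ k₁ k₂ : Fin n → List (Fin n), IsConj h₁ k₁ ∧ IsConj h₂ k₂ ∧
    IsPrefixMorphism k₁ ∧ IsPrefixMorphism k₂ ∧ (IsMarked k₁ ∨ IsMarked k₂)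

/-- the case of words read from the left -/
theorem left {n : ℕ} {h₁ h₂ : Fin n → List (Fin n)} (hyp : Good h₁ h₂) (w : List (Fin n))
    (h : ∀ i < 2 * n, (fun u : List (Fin n) => u.flatMap h₁)^[i] w =
      (fun u : List (Fin n) => u.flatMap h₂)^[i] w) (i : ℕ) :
    (fun u : List (Fin n) => u.flatMap h₁)^[i] w =
      (fun u : List (Fin n) => u.flatMap h₂)^[i] w := by
  obtain ⟨k₁, k₂, ⟨z₁, a1⟩, ⟨z₂, a2⟩, ⟨b1, b2⟩, ⟨c1, c2⟩, hm⟩ := hyp
  rcases hm with hm | hm
  · exact Pool.Agent.Helper22.D0L.main_marked_left a1 a2 b1 c1 hm c2 w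
      (by rw [Fintype.card_fin]; exact h) i
  · exact (Pool.Agent.Helper22.D0L.main_marked_left a2 a1 c1 b1 hm b2 w
      (by rw [Fintype.card_fin]; exact fun j hj => (h j hj).symm) i).symm

/-- Let `h₁`, `h₂` be morphisms over `n` letters that are conjugate to prefix morphisms one of
which is marked, or whose mirror images have this property. Then the sequences of the D0L systems
`(h₁, w₁)` and `(h₂, w₂)` coincide if and only if their first `2 n` terms coincide. -/
theorem result (n : ℕ) (h₁ h₂ : Fin n → List (Fin n)) (w₁ w₂ : List (Fin n))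
    (hyp : Good h₁ h₂ ∨ Good (fun x => (h₁ x).reverse) (fun x => (h₂ x).reverse)) :
    (∀ k : ℕ, (fun u : List (Fin n) => u.flatMap h₁)^[k] w₁ =
               (fun u : List (Fin n) => u.flatMap h₂)^[k] w₂) ↔
    (∀ k : ℕ, k < 2 * n →
               (fun u : List (Fin n) => u.flatMap h₁)^[k] w₁ =
               (fun u : List (Fin n) => u.flatMap h₂)^[k] w₂) := by
  constructor
  · intro h k _
    exact h k
  · intro h k
    rcases Nat.eq_zero_or_pos n with hn | hn
    · subst hn
      have h1 : ∀ u : List (Fin 0), u = [] := by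
        intro u
        cases u with
        | nil => rfl
        | cons x u => exact x.elim0
      rw [h1 (_^[k] w₁), h1 (_^[k] w₂)]
    · have h0 : w₁ = w₂ := h 0 (by omega)
      subst h0
      rcases hyp with hyp | hyp
      · exact left hyp w₁ h k
      · have h2 := left hyp w₁.reverse (fun j hj => by
          rw [← Pool.Agent.Helper22.D0L.rev_iter, ← Pool.Agent.Helper22.D0L.rev_iter, h j hj]) k
        rw [← Pool.Agent.Helper22.D0L.rev_iter, ← Pool.Agent.Helper22.D0L.rev_iter] at h2
        exact List.reverse_injective h2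

end Pool.Agent.Results.MP_2bc838_lc.MarkedPrefix
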