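import Pool.Agent.Helper22.D0L.ListsP

/-!
# A bound depending only on n for conjugates of prefix morphisms (MP_2bc838_lc)
-/

set_option autoImplicit false

namespace Pool.Agent.Results.MP_2bc838_lc.PrefixBound

/-- `h` is conjugate to a prefix morphism: `h(x) z = z k(x)` for all letters `x`, where no `k(x)` is
empty or a prefix of another `k(y)`. -/
def PrefixConj {n : ℕ} (h : Fin n → List (Fin n)) : Prop :=
  ∃ (z : List (Fin n)) (k : Fin n → List (Fin n)), (∀ x, h x ++ z = z ++ k x) ∧
    (∀ x, k x ≠ []) ∧ ∀ x y, x ≠ y → ¬ k x <+: k y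

/-- Let `h₁`, `h₂` be morphisms over `n` letters that are both conjugate to prefix morphisms, or
whose mirror images are. Then the sequences of the D0L systems `(h₁, w₁)` and `(h₂, w₂)` coincide
if and only if their terms with indices `0, ..., n (n + 1) / 2` coincide. -/
theorem result (n : ℕ) (h₁ h₂ : Fin n → List (Fin n)) (w₁ w₂ : List (Fin n))
    (hyp : (PrefixConj h₁ ∧ PrefixConj h₂) ∨
      (PrefixConj (fun x => (h₁ x).reverse) ∧ PrefixConj (fun x => (h₂ x).reverse))) :
    (∀ k : ℕ, (fun u : List (Fin n) => u.flatMap h₁)^[k] w₁ =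
               (fun u : List (Fin n) => u.flatMap h₂)^[k] w₂) ↔
    (∀ k : ℕ, k ≤ n * (n + 1) / 2 →
               (fun u : List (Fin n) => u.flatMap h₁)^[k] w₁ =
               (fun u : List (Fin n) => u.flatMap h₂)^[k] w₂) := by
  constructor
  · intro h k _
    exact h k
  · intro h k
    have h0 : w₁ = w₂ := h 0 (Nat.zero_le _)
    subst h0
    rcases hyp with ⟨⟨z₁, k₁, a1, a2, a3⟩, ⟨z₂, k₂, b1, b2, b3⟩⟩ |
      ⟨⟨z₁, k₁, a1, a2, a3⟩, ⟨z₂, k₂, b1, b2, b3⟩⟩
    · exact Pool.Agent.Helper22.D0L.main_prefix_left a1 b1 a2 b2 a3 b3 w₁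
        (by rw [Fintype.card_fin]; exact h) k
    · have h2 := Pool.Agent.Helper22.D0L.main_prefix_left a1 b1 a2 b2 a3 b3 w₁.reverse
        (by
          rw [Fintype.card_fin]
          intro j hj
          rw [← Pool.Agent.Helper22.D0L.rev_iter, ← Pool.Agent.Helper22.D0L.rev_iter, h j hj]) k
      rw [← Pool.Agent.Helper22.D0L.rev_iter, ← Pool.Agent.Helper22.D0L.rev_iter] at h2
      exact List.reverse_injective h2

end Pool.Agent.Results.MP_2bc838_lc.PrefixBound
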